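import Mathlib
import Pool.Agent.Q266.QCongr
import Pool.Agent.Q266.QWatson3

set_option autoImplicit false

/-!
Q1: both truncations are `≡ 0` modulo `Φ_n(q)^2` for `n ≡ 3 (mod 4)`.
-/

namespace Pool.Agent.Results.MP_5ca353_nt.SquareCongruence

open Polynomial Finset

/-- The field of rational functions in `q`. -/
abbrev K : Type := RatFunc ℤ

/-- The variable. -/
noncomputable abbrev q : K := RatFunc.X

/-- `(a; x)_m`. -/
noncomputable def poch (a x : K) (m : ℕ) : K := ∏ j ∈ range m, (1 - a * x ^ j)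

/-- `A_k(q) = (q; q^2)_k / (q^2; q^2)_k`. -/
noncomputable def A (k : ℕ) : K := poch q (q ^ 2) k / poch (q ^ 2) (q ^ 2) k

/-- `B_k(q) = (q^2; q^4)_k / (q^4; q^4)_k`. -/
noncomputable def B (k : ℕ) : K := poch (q ^ 2) (q ^ 4) k / poch (q ^ 4) (q ^ 4) k

/-- `c_k(q)`. -/
noncomputable def c (k : ℕ) : K := A k ^ 2 * B k * q ^ (2 * k)

/-- `S_N(q)`, the sum over `0 ≤ k ≤ N`. -/
noncomputable def S (N : ℕ) : K := ∑ k ∈ range (N + 1), c k

/-- `F ≡ 0 (mod P)`: in a reduced fraction `F = A / B` the denominator is coprime to `P` and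
`P` divides the numerator. -/
def CongrZero (F : K) (P : ℤ[X]) : Prop :=
  ∃ A B : ℤ[X], B ≠ 0 ∧ IsRelPrime A B ∧ F = algebraMap ℤ[X] K A / algebraMap ℤ[X] K B ∧
    IsRelPrime B P ∧ P ∣ A

theorem result : ∀ n r : ℕ, n % 4 = 3 → 1 ≤ r →
    CongrZero (S (r * n - 1)) (cyclotomic n ℤ ^ 2) ∧
      CongrZero (S (r * n + (n - 1) / 2)) (cyclotomic n ℤ ^ 2) := by
  intro n r hn hr
  have hc : c = Q266.QWatson.c := by
    funext k
    simp only [c, A, B, Q266.QWatson.c, Q266.QWatson.Af, Q266.QWatson.Bf, poch, Q266.QVal.poch,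
      pow_one]
  have h1 : n = 2 * ((n - 1) / 2) + 1 := by omega
  have h2 : (n - 1) / 2 % 2 = 1 := by omega
  have hp := Q266.QVal.cyc_prime (d := n) (by omega)
  have hrn : 1 ≤ r * n := Nat.one_le_iff_ne_zero.2 (Nat.mul_ne_zero (by omega) (by omega))
  constructor
  · apply Q266.QVal.reduced_of_I hp
    unfold S
    rw [Nat.sub_add_cancel hrn, hc]
    exact Q266.QWatson.main_a n _ r h1 h2
  · apply Q266.QVal.reduced_of_I hp
    unfold S
    rw [add_assoc, hc]
    exact Q266.QWatson.main_b n _ r h1 h2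

end Pool.Agent.Results.MP_5ca353_nt.SquareCongruence
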